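import Mathlib
import Pool.Agent.Helper54.AK.Main

set_option autoImplicit false

/-!
# `c(F)` for degenerate graphs `F` with a homomorphism to `H` is bounded in terms of `c(H)`

In particular the numbers `c(F)` of all `r`-degenerate graphs `F` (of any size) are bounded by
`r (r + 1)^(r + 1) c(K_{r + 1})`.

Idea.  If an `F`-free graph of maximum degree `Δ` contained many copies of `H` inside a set of
vertices, then it would contain many copies of a blow-up of `H`, and a random copy of the blow-up
has the property that the common neighbourhoods of its classes host a greedy embedding of `F`.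
Hence the copies of `H` can be distributed among the vertices such that each vertex gets few, and
almost all vertices can be partitioned at random into `H`-free parts.
-/

namespace Pool.Agent.Results.MP_349e33_co.CliqueBoundsDegenerate

open Pool.Agent.TH855 Pool.Agent.Helper54.AK Pool.Agent.Helper311.Glue
open scoped ENNReal NNReal

/-- `F` is `r`-degenerate: every nonempty set `S` of vertices contains a vertex with at most `r`
neighbours in `S`. -/
def Degenerate {W : Type} (F : SimpleGraph W) (r : ℕ) : Prop :=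
  ∀ S : Finset W, S.Nonempty → ∃ w ∈ S, {v : W | v ∈ S ∧ F.Adj w v}.ncard ≤ r

theorem degen {W : Type} (F : SimpleGraph W) (r : ℕ) (h : Degenerate F r) : Degen F r := by
  classical
  intro S hS
  obtain ⟨w, hw, hc⟩ := h S hS
  refine ⟨w, hw, ?_⟩
  have h1 : {v : W | v ∈ S ∧ F.Adj w v} = ((S.filter (fun v => F.Adj w v) : Finset W) : Set W) := by
    ext v; simp
  rw [h1, Set.ncard_coe_finset] at hc
  convert hc

theorem upTo_same {U : Type} [Fintype U] (H : SimpleGraph U) (m : ℕ) {a : ℝ} (h : UpTo H a) :
    UpTo (BG H m ∅) a := by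
  refine UpTo.mono ⟨⟨⟨fun p => p.1.1, fun {p q} hpq => hpq⟩, ?_⟩⟩ h
  rintro ⟨⟨u, a⟩, hu⟩ ⟨⟨v, b⟩, hv⟩ huv
  have e1 : u = v := huv
  have e2 : a = 0 := hu.resolve_left (Finset.notMem_empty _)
  have e3 : b = 0 := hv.resolve_left (Finset.notMem_empty _)
  subst e1 e2 e3
  rfl

/-- the bound -/
theorem bound {U W : Type} [Fintype U] [Fintype W] (H : SimpleGraph U) (F : SimpleGraph W)
    (r s : ℕ) (hU : 3 ≤ Fintype.card U) (hH : ∀ z, (H.induce {u | u ≠ z}).Connected)
    (hom : Nonempty (F →g H)) (hrs : r < s) (hF : Degenerate F r) :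
    ((s - r : ℕ) : ℝ≥0∞) * c F ≤ ((Fintype.card U - 1 : ℕ) : ℝ≥0∞) * s ^ Fintype.card U * c H := by
  classical
  by_cases hc : c H = ∞
  · rw [hc, ENNReal.mul_top]
    · exact le_top
    · refine mul_ne_zero ?_ (pow_ne_zero _ ?_)
      · rw [Ne, Nat.cast_eq_zero]; omega
      · rw [Ne, Nat.cast_eq_zero]; omega
  · obtain ⟨κ⟩ := hom
    obtain ⟨m, rfl⟩ : ∃ m, s = m + 1 := ⟨s - 1, by omega⟩
    have h0 : UpTo H (c H).toReal :=
      upTo_of_c_le H _ ENNReal.toReal_nonneg (by rw [ENNReal.ofReal_toReal hc])
    have hne : (∅ : Finset U) ≠ Finset.univ := by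
      intro h
      have := congrArg Finset.card h
      rw [Finset.card_empty, Finset.card_univ] at this
      omega
    have h1 := upTo_main (U := U) (H := H) ⟨hU, hH⟩ F r m hrs (degen F r hF) (fun w => κ w)
      (fun a b hab => κ.map_adj hab) ∅ hne ENNReal.toReal_nonneg (upTo_same H m h0)
    have h4 : Wt U m ∅ = Fintype.card U - 1 := by
      rw [Wt, Finset.card_empty]; omega
    rw [h4, Finset.card_empty, Nat.sub_zero] at h1
    have hpos : (0 : ℝ) < (m : ℝ) + 1 - r := by
      have : (r : ℝ) < (m : ℝ) + 1 := by exact_mod_cast hrs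
      linarith
    have h9 := c_le_of_upTo F _ (by positivity) h1
    have h10 : ((m + 1 - r : ℕ) : ℝ≥0∞) = ENNReal.ofReal ((m : ℝ) + 1 - r) := by
      have : ((m + 1 - r : ℕ) : ℝ) = (m : ℝ) + 1 - r := by
        rw [Nat.cast_sub hrs.le]; push_cast; ring
      rw [← this, ENNReal.ofReal_natCast]
    calc ((m + 1 - r : ℕ) : ℝ≥0∞) * c F ≤ ENNReal.ofReal ((m : ℝ) + 1 - r) *
          ENNReal.ofReal (((Fintype.card U - 1 : ℕ) : ℝ) * ((m : ℝ) + 1) ^ Fintype.card U /
            ((m : ℝ) + 1 - r) * (c H).toReal) := by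
            rw [h10]; gcongr
      _ = ENNReal.ofReal (((Fintype.card U - 1 : ℕ) : ℝ) * ((m : ℝ) + 1) ^ Fintype.card U *
            (c H).toReal) := by
            rw [← ENNReal.ofReal_mul hpos.le]
            congr 1
            field_simp
      _ = ((Fintype.card U - 1 : ℕ) : ℝ≥0∞) * ((m + 1 : ℕ) : ℝ≥0∞) ^ Fintype.card U * c H := by
            rw [ENNReal.ofReal_mul (by positivity), ENNReal.ofReal_mul (by positivity),
              ENNReal.ofReal_natCast, ENNReal.ofReal_pow (by positivity),
              ENNReal.ofReal_toReal hc]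
            congr 3
            rw [← ENNReal.ofReal_natCast]
            congr 1
            push_cast
            ring

/-- degenerate graphs have few colours -/
theorem colorable_of_degenerate {W : Type} [Fintype W] (F : SimpleGraph W) (r : ℕ)
    (hF : Degen F r) : F.Colorable (r + 1) := by
  classical
  have key : ∀ (n : ℕ) (S : Finset W), S.card = n → ∃ f : W → Fin (r + 1),
      ∀ w ∈ S, ∀ w' ∈ S, F.Adj w w' → f w ≠ f w' := by
    intro n
    induction n with
    | zero =>
      intro S hS
      rw [Finset.card_eq_zero] at hS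
      subst hS
      exact ⟨fun _ => 0, by simp⟩
    | succ n ih =>
      intro S hS
      obtain ⟨w, hw, hwr⟩ := hF S (by rw [← Finset.card_pos]; omega)
      obtain ⟨f, hf⟩ := ih (S.erase w) (by rw [Finset.card_erase_of_mem hw, hS]; rfl)
      obtain ⟨a, ha⟩ : ∃ a : Fin (r + 1), a ∉ (S.filter (fun v => F.Adj w v)).image f := by
        by_contra hcon
        push Not at hcon
        have h1 : (Finset.univ : Finset (Fin (r + 1))).card ≤
            ((S.filter (fun v => F.Adj w v)).image f).card :=
          Finset.card_le_card (fun a _ => hcon a)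
        rw [Finset.card_univ, Fintype.card_fin] at h1
        have h2 : ((S.filter (fun v => F.Adj w v)).image f).card ≤ r :=
          Finset.card_image_le.trans (by convert hwr)
        omega
      refine ⟨Function.update f w a, ?_⟩
      intro u hu u' hu' huu
      by_cases h1 : u = w
      · have h2 : u' ≠ w := by rintro rfl; exact huu.ne h1
        rw [h1, Function.update_self, Function.update_of_ne h2]
        intro h
        exact ha (Finset.mem_image.2 ⟨u', Finset.mem_filter.2 ⟨hu', h1 ▸ huu⟩, h.symm⟩)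
      · by_cases h2 : u' = w
        · rw [h2, Function.update_self, Function.update_of_ne h1]
          intro h
          exact ha (Finset.mem_image.2 ⟨u, Finset.mem_filter.2 ⟨hu, h2 ▸ huu.symm⟩, h⟩)
        · rw [Function.update_of_ne h1, Function.update_of_ne h2]
          exact hf u (Finset.mem_erase.2 ⟨h1, hu⟩) u' (Finset.mem_erase.2 ⟨h2, hu'⟩) huu
  obtain ⟨f, hf⟩ := key _ Finset.univ rfl
  exact ⟨SimpleGraph.Coloring.mk f
    (fun {a b} hab => hf a (Finset.mem_univ _) b (Finset.mem_univ _) hab)⟩

theorem conn_top (n : ℕ) (hn : 2 ≤ n) (z : Fin n) :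
    ((⊤ : SimpleGraph (Fin n)).induce {u | u ≠ z}).Connected := by
  have h : ((⊤ : SimpleGraph (Fin n)).induce {u | u ≠ z}) = ⊤ := by
    ext a b
    simp [Subtype.ext_iff]
  rw [h]
  have : Nonempty {u : Fin n | u ≠ z} := by
    have : Nontrivial (Fin n) := Fin.nontrivial_iff_two_le.2 hn
    obtain ⟨u, hu⟩ := exists_ne z
    exact ⟨⟨u, hu⟩⟩
  exact SimpleGraph.connected_top

/-- (1) Let `H` be a finite graph with at least three vertices which stays connected when any one
vertex is deleted, let `r < s`, and let `F` be a finite `r`-degenerate graph which has a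
homomorphism to `H`. Then `(s - r) c(F) ≤ (|V(H)| - 1) s^|V(H)| c(H)`.

(2) For every `r ≥ 2` the numbers `c(F)` of the finite `r`-degenerate graphs `F` are bounded by a
finite constant if and only if `c(K_{r+1})` is finite. -/
theorem result :
    (∀ {U W : Type} [Fintype U] [Fintype W] (H : SimpleGraph U) (F : SimpleGraph W) (r s : ℕ),
      3 ≤ Fintype.card U → (∀ z, (H.induce {u | u ≠ z}).Connected) → Nonempty (F →g H) →
      r < s → Degenerate F r →
      ((s - r : ℕ) : ℝ≥0∞) * c F ≤
        ((Fintype.card U - 1 : ℕ) : ℝ≥0∞) * s ^ Fintype.card U * c H) ∧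
    ∀ r : ℕ, 2 ≤ r →
      ((∃ M : ℝ≥0, ∀ (W : Type) [Fintype W] (F : SimpleGraph W), Degenerate F r → c F ≤ M) ↔
        c (⊤ : SimpleGraph (Fin (r + 1))) ≠ ∞) := by
  refine ⟨fun H F r s hU hH hom hrs hF => bound H F r s hU hH hom hrs hF, ?_⟩
  intro r hr
  constructor
  · rintro ⟨M, hM⟩
    have h1 : Degenerate (⊤ : SimpleGraph (Fin (r + 1))) r := by
      intro S hS
      obtain ⟨w, hw⟩ := hS
      refine ⟨w, hw, ?_⟩
      have h2 : {v : Fin (r + 1) | v ∈ S ∧ (⊤ : SimpleGraph (Fin (r + 1))).Adj w v} ⊆
          ((Finset.univ.erase w : Finset (Fin (r + 1))) : Set (Fin (r + 1))) := by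
        intro v hv
        rw [Finset.mem_coe, Finset.mem_erase]
        exact ⟨fun e => hv.2 e.symm, Finset.mem_univ _⟩
      refine (Set.ncard_le_ncard h2 (Finset.finite_toSet _)).trans ?_
      rw [Set.ncard_coe_finset, Finset.card_erase_of_mem (Finset.mem_univ _), Finset.card_univ,
        Fintype.card_fin]
      omega
    have h3 := hM _ _ h1
    exact ne_top_of_le_ne_top ENNReal.coe_ne_top h3
  · intro hc
    refine ⟨((r : ℝ≥0∞) * ((r + 1 : ℕ) : ℝ≥0∞) ^ (r + 1) *
      c (⊤ : SimpleGraph (Fin (r + 1)))).toNNReal, ?_⟩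
    intro W _ F hF
    obtain ⟨κ⟩ := colorable_of_degenerate F r (degen F r hF)
    have h1 := bound (⊤ : SimpleGraph (Fin (r + 1))) F r (r + 1) (by rw [Fintype.card_fin]; omega)
      (fun z => conn_top (r + 1) (by omega) z) ⟨κ⟩ (by omega) hF
    have h2 : ((r : ℝ≥0∞) * ((r + 1 : ℕ) : ℝ≥0∞) ^ (r + 1) *
      c (⊤ : SimpleGraph (Fin (r + 1)))) ≠ ∞ := by
      refine ENNReal.mul_ne_top (ENNReal.mul_ne_top (ENNReal.natCast_ne_top _) ?_) hc
      exact ENNReal.pow_ne_top (ENNReal.natCast_ne_top _)
    rw [ENNReal.coe_toNNReal h2]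
    simpa using h1

end Pool.Agent.Results.MP_349e33_co.CliqueBoundsDegenerate
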