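import Mathlib
import Pool.Agent.Helper54.AK.Main

set_option autoImplicit false

/-!
# `c(F) ≤ 8 r` for every 3-colourable `r`-degenerate graph `F`

The bound depends on the degeneracy only, not on the number of vertices of `F`.

Idea.  If a set `S` of vertices of an `F`-free graph `G` of maximum degree `Δ` contained at least
`|S| Δ^(2s - γ)` copies of `K_{1,s,s}`, then, by convexity, it would contain very many copies of
`K_{s,s,s}`, and a random one of these would have the following property: the common neighbourhoods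
of the pairs of classes are three sets in which every `r` vertices of two of them have many common
neighbours in the third, so that `F` could be embedded greedily.  Hence the copies of `K_{1,s,s}`
can be distributed among the vertices such that every vertex gets few of them, and a random
partition followed by the bound `c(K_{1,s,s}) ≤ 1` gives the result.
-/

namespace Pool.Agent.Results.MP_349e33_co.DegenerateColorable

open Pool.Agent.TH855 Pool.Agent.Helper54.AK Pool.Agent.Helper311.Glue
open scoped ENNReal

/-- `F` is `r`-degenerate: every nonempty set `S` of vertices contains a vertex with at most `r`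
neighbours in `S`. -/
def Degenerate {W : Type} (F : SimpleGraph W) (r : ℕ) : Prop :=
  ∀ S : Finset W, S.Nonempty → ∃ w ∈ S, {v : W | v ∈ S ∧ F.Adj w v}.ncard ≤ r

theorem degen {W : Type} (F : SimpleGraph W) (r : ℕ) (h : Degenerate F r) : Degen F r := by
  classical
  intro S hS
  obtain ⟨w, hw, hc⟩ := h S hS
  refine ⟨w, hw, ?_⟩
  have h1 : {v : W | v ∈ S ∧ F.Adj w v} = ((S.filter (fun v => F.Adj w v) : Finset W) : Set W) := by
    ext v; simp
  rw [h1, Set.ncard_coe_finset] at hc
  convert hc

/-- the blow-up of a triangle in two of its vertices satisfies `c ≤ 1` -/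
theorem upTo_tri (m : ℕ) :
    UpTo (BG (⊤ : SimpleGraph (Fin 3)) m {1, 2}) 1 := by
  refine upTo_ab _ ⟨(0, 0), Or.inr rfl⟩ ⟨fun y => decide (y.1.1 = 1), ?_⟩
  rintro ⟨⟨y, a⟩, hy⟩ ⟨⟨z, b⟩, hz⟩ hyz hy0 hz0 h
  have hyz' : y ≠ z := hyz
  simp only at h hyz'
  have hy' : y ≠ 0 := by
    rintro rfl
    rcases hy with hy | hy
    · simp at hy
    · exact hy0 (by simp only at hy; subst hy; rfl)
  have hz' : z ≠ 0 := by
    rintro rfl
    rcases hz with hz | hz
    · simp at hz
    · exact hz0 (by simp only at hz; subst hz; rfl)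
  have key : ∀ y z : Fin 3, y ≠ 0 → z ≠ 0 → y ≠ z → decide (y = 1) ≠ decide (z = 1) := by
    decide
  exact key y z hy' hz' hyz' h

theorem twoConn_tri : TwoConn (⊤ : SimpleGraph (Fin 3)) := by
  refine ⟨by simp, ?_⟩
  intro z
  have h : ((⊤ : SimpleGraph (Fin 3)).induce {u | u ≠ z}) = ⊤ := by
    ext a b
    simp [Subtype.ext_iff]
  rw [h]
  have : Nonempty {u : Fin 3 | u ≠ z} := by
    obtain ⟨u, hu⟩ := exists_ne z
    exact ⟨⟨u, hu⟩⟩
  exact SimpleGraph.connected_top

/-- Let `r ≥ 1`. Every finite 3-colourable `r`-degenerate graph `F` satisfies `c(F) ≤ 8 r`. -/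
theorem result {W : Type} [Fintype W] (F : SimpleGraph W) (r : ℕ) (hr : 1 ≤ r)
    (h3 : F.Colorable 3) (hF : Degenerate F r) : c F ≤ 8 * r := by
  classical
  obtain ⟨κ⟩ := h3
  have hm : ((2 * r - 1 : ℕ) : ℝ) + 1 = 2 * r := by
    rw [Nat.cast_sub (by omega)]; push_cast; ring
  have hr0 : (0 : ℝ) < r := by exact_mod_cast (show 0 < r by omega)
  have h1 := upTo_main (U := Fin 3) (H := (⊤ : SimpleGraph (Fin 3))) twoConn_tri F r (2 * r - 1)
    (by omega) (degen F r hF) (fun w => κ w) (fun a b hab => κ.valid hab) {1, 2}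
    (by decide) zero_le_one (upTo_tri _)
  have h4 : ((Wt (Fin 3) (2 * r - 1) {1, 2} : ℕ) : ℝ) = 4 * r := by
    have h5 : Wt (Fin 3) (2 * r - 1) {1, 2} = 4 * r := by
      have h6 : ({1, 2} : Finset (Fin 3)).card = 2 := by decide
      rw [Wt, h6, Fintype.card_fin]
      omega
    rw [h5]; push_cast; ring
  have h7 : Fintype.card (Fin 3) - ({1, 2} : Finset (Fin 3)).card = 1 := by decide
  rw [h4, h7, hm, pow_one, mul_one] at h1
  have h8 : 4 * (r : ℝ) * (2 * r) / (2 * r - r) = 8 * r := by
    have : (2 * (r : ℝ) - r) = r := by ring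
    rw [this]; field_simp; ring
  rw [h8] at h1
  have h9 := c_le_of_upTo F _ (by positivity) h1
  rw [ENNReal.ofReal_mul (by norm_num), ENNReal.ofReal_natCast] at h9
  simpa using h9

end Pool.Agent.Results.MP_349e33_co.DegenerateColorable
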